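import Mathlib
import Pool.Agent.Q290.MG.Cgz

set_option autoImplicit false

namespace Pool.Agent.Results.MP_59b15d_al.CongruenceQuadratic

open Pool.Agent.H29R2.MG Pool.Agent.Q290.MG Module

universe u v

/-- Let `g ≥ 10` and let `Γ = Gam g` be the subgroup of the mapping class group `Mod_g` generated
by the Dehn twists about `a_k`, `b_k` and the band sums of `a_k` and `a_{k+1}` (by the theorem of
Lickorish it is all of `Mod_g`).  Let `ρ` be a representation of `Γ` over a field `K` of
characteristic `p` with kernel of finite index.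

1. If the dimension of `ρ` is less than `2g(g-1)` and either `2g - 2` is not zero in `K` or `ρ` is
completely reducible, then the kernel of `ρ` is `Γ`, or `p` is a prime and it is the subgroup of
the elements acting trivially on `H_1(Σ_g; ℤ/p)`; every subgroup `N` of `Γ` containing it contains
a congruence subgroup: the elements of `Γ` which are trivial in `Out(π/P)`, for some
characteristic subgroup `P` of finite index of `π = π_1(Σ_g)`.

2. If `K` has characteristic zero and the dimension of `ρ` is less than `2^(g-2)`, then `ρ` is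
trivial. -/
theorem result (g : ℕ) (hg : 10 ≤ g) (K : Type u) [Field K] (V : Type v) [AddCommGroup V]
    [Module K V] [FiniteDimensional K V] (ρ : Gam g →* Module.End K V)
    (hf : ρ.ker.FiniteIndex) :
    (finrank K V < 2 * g * (g - 1) → (2 * (g : K) - 2 ≠ 0 ∨ ComplRed ρ) →
      ((∀ γ, ρ γ = 1) ∨
        ((ringChar K).Prime ∧ ∀ γ : Gam g, ρ γ = 1 ↔ ActsTrivMod g (ringChar K) γ)) ∧
      ∀ N : Subgroup (Gam g), ρ.ker ≤ N → IsCongruence N) ∧
    (CharZero K → finrank K V < 2 ^ (g - 2) → ∀ γ, ρ γ = 1) := by
  refine ⟨fun hd h => ?_, fun h0 hd => fin_char0 (by omega) hd hf⟩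
  have hs := stdSum_of hg hd h
  constructor
  · rcases std_fin (by omega) hs hf with h1 | h1
    · exact Or.inl h1
    · rcases std_ker hs with h2 | h2
      · exact Or.inl h2
      · exact Or.inr ⟨h1, h2⟩
  · intro N hN
    obtain ⟨P, h1, h2, h3⟩ := std_cong (by omega) hs hf
    exact ⟨P, h1, h2, fun γ hγ => hN (h3 γ hγ)⟩

end Pool.Agent.Results.MP_59b15d_al.CongruenceQuadratic
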