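import Mathlib
import Pool.Agent.Q290.SC.Rel

set_option autoImplicit false

namespace Pool.Agent.Results.MP_59b15d_al.JohnsonFiltration

open Pool.Agent.Q290.SC

/-- Let `g ≥ 3`, let `G` be the fundamental group of the closed orientable surface of genus `g`, let
`H` be a subgroup of finite index of `Aut(G)` and `γ` the `k`-th term of the lower central series of
`G`.  Then `H` contains all automorphisms acting as inner automorphisms on `G / Γ`, for some
characteristic subgroup `Γ` of finite index of `G` (`H` is a congruence subgroup), if and only if,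
for some such `Γ`, it contains all automorphisms acting as inner automorphisms on `G / Γ` and on
`G / γ` (the intersection of a congruence subgroup with a term of the Johnson filtration).  In
particular (`Γ = G`) every subgroup of finite index which contains a term of the Johnson filtration
is a congruence subgroup. -/
theorem result (g : ℕ) (hg : 3 ≤ g) (G : Type) [Group G]
    (hG : Nonempty (G ≃* PresentedGroup
        ({(List.ofFn (fun i : Fin g =>
            FreeGroup.of (Sum.inl i : Fin g ⊕ Fin g) *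
            FreeGroup.of (Sum.inr i : Fin g ⊕ Fin g) *
            (FreeGroup.of (Sum.inl i : Fin g ⊕ Fin g))⁻¹ *
            (FreeGroup.of (Sum.inr i : Fin g ⊕ Fin g))⁻¹)).prod} :
          Set (FreeGroup (Fin g ⊕ Fin g)))))
    (H : Subgroup (MulAut G)) (hH : H.FiniteIndex) (k : ℕ) :
    (∃ Γ : Subgroup G, Γ.Characteristic ∧ Γ.FiniteIndex ∧
      ∀ φ : MulAut G, (∃ h : G, ∀ x : G, φ x * (h * x * h⁻¹)⁻¹ ∈ Γ) → φ ∈ H) ↔
    ∃ Γ : Subgroup G, Γ.Characteristic ∧ Γ.FiniteIndex ∧
      ∀ φ : MulAut G, (∃ h : G, ∀ x : G, φ x * (h * x * h⁻¹)⁻¹ ∈ Γ) →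
        (∃ h : G, ∀ x : G, φ x * (h * x * h⁻¹)⁻¹ ∈ (⊤ : Subgroup G).lowerCentralSeries k) →
        φ ∈ H := by
  obtain ⟨e⟩ := hG
  constructor
  · rintro ⟨Γ, h1, h2, h3⟩
    exact ⟨Γ, h1, h2, fun φ h4 _ => h3 φ h4⟩
  · rintro ⟨Γ, h1, h2, h3⟩
    exact (johnson_rel (g := g) hg e k H hH).2 ⟨Γ, h1, h2, fun φ h4 h5 => h3 φ h5 h4⟩

end Pool.Agent.Results.MP_59b15d_al.JohnsonFiltration
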