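import Mathlib
import Pool.Agent.Q290.MR.Sec

set_option autoImplicit false

namespace Pool.Agent.Results.MP_59b15d_al.ModulesOverRings

open Pool.Agent.H29R2.MG Pool.Agent.Q290.MG Pool.Agent.Q290.MR Module

universe u v

/-- Let `g ≥ 10` and let `Γ = Gam g` be the subgroup of the mapping class group `Mod_g` generated
by the Dehn twists about `a_k`, `b_k` and the band sums of `a_k` and `a_{k+1}` (by the theorem of
Lickorish it is all of `Mod_g`).

1. Let `Γ` act linearly on a module `M` over a commutative ring, with fewer than `2g(g-1)`
generators and without `(2g-2)`-torsion, and suppose that `M` is finite or that the kernel of the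
action has finite index.  Then the kernel is the subgroup of the elements acting trivially on
`H_1(Σ_g; ℤ/n)` for some `n ≥ 1`, and every subgroup of `Γ` containing it contains a congruence
subgroup.

2. Let `N ≤ N₁` be normal subgroups of `Γ` such that `N` has finite index in `Γ` and the group
`N₁/N` is abelian, without elements of order dividing `2g - 2` other than `1`, and generated by
fewer than `2g(g-1)` elements.  Then the centralizer of `N₁/N` in `Γ` is the subgroup of the
elements acting trivially on `H_1(Σ_g; ℤ/n)` for some `n ≥ 1`. -/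
theorem result (g : ℕ) (hg : 10 ≤ g) : ModuleCase.{u, v} g ∧ SectionCase g := by
  refine ⟨?_, ?_⟩
  · rintro R _ M _ _ ρ ⟨d, hd, s, hs⟩ ht hf
    have hf' : ρ.ker.FiniteIndex := by
      rcases hf with h | h
      · exact ker_finite_index ρ
      · exact h
    obtain ⟨n, hn⟩ := ker_tf hg ht s hs hd ρ
    have h1 : 1 ≤ n := level_pos (by omega) hf' hn
    exact ⟨⟨n, h1, hn⟩, fun N hN => cong_ker h1 hn N hN⟩
  · rintro N N₁ hN hN₁ _ hf hc ht ⟨d, s, hd, hs1, hs⟩
    obtain ⟨n, h1, h2⟩ := section_ker hg N N₁ hc ht s hs1 hs hd
    exact ⟨n, h1 hf, h2⟩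

end Pool.Agent.Results.MP_59b15d_al.ModulesOverRings
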